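import Pool.Agent.ConvF.LW

/-!
# The layer cake with cubic thresholds
-/

namespace Pool.Agent.ConvG

open Finset Pool.Agent.ConvF

/-- The growth of the thresholds, with the geometric weight. -/
theorem thr_le3 (c : ℝ) (hc : 0 ≤ c) (m j : ℕ) :
    c * ((m + j : ℕ) + 3) ^ 3 / 2 ^ (m + j) ≤ c * (m + 3) ^ 3 / 2 ^ m * (27 * (3 / 4) ^ j) := by
  have h1 : (((m + j : ℕ) : ℝ) + 3) ≤ (m + 3) * ((3 + j) / 3) := by
    push_cast
    have : (0 : ℝ) ≤ (m : ℝ) * j := by positivity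
    nlinarith
  have h2 : (((m + j : ℕ) : ℝ) + 3) ^ 3 ≤ (m + 3) ^ 3 * ((3 + j) ^ 5 / 243) := by
    calc (((m + j : ℕ) : ℝ) + 3) ^ 3 ≤ ((m + 3) * ((3 + j) / 3)) ^ 3 :=
          pow_le_pow_left₀ (by positivity) h1 3
      _ = (m + 3) ^ 3 * ((3 + j) / 3) ^ 3 := by rw [mul_pow]
      _ ≤ (m + 3) ^ 3 * ((3 + j) / 3) ^ 5 := by
          refine mul_le_mul_of_nonneg_left ?_ (by positivity)
          refine pow_le_pow_right₀ ?_ (by norm_num)
          rw [le_div_iff₀ (by norm_num)]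
          have : (0 : ℝ) ≤ j := Nat.cast_nonneg j
          linarith
      _ = _ := by rw [div_pow]; norm_num
  have h3 : ((3 + (j : ℝ)) ^ 5) * 2 ^ j ≤ 6561 * 3 ^ j := by exact_mod_cast pow_five_le j
  have h4 : ((3 + (j : ℝ)) ^ 5) / 243 ≤ 27 * (3 / 2) ^ j := by
    rw [div_pow, div_le_iff₀ (by norm_num)]
    have : (0 : ℝ) < 2 ^ j := by positivity
    rw [show (27 : ℝ) * (3 ^ j / 2 ^ j) * 243 = 6561 * 3 ^ j / 2 ^ j by ring, le_div_iff₀ this]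
    exact h3
  have h5 : (((m + j : ℕ) : ℝ) + 3) ^ 3 ≤ (m + 3) ^ 3 * (27 * (3 / 2) ^ j) :=
    h2.trans (mul_le_mul_of_nonneg_left h4 (by positivity))
  calc c * ((m + j : ℕ) + 3) ^ 3 / 2 ^ (m + j)
      ≤ c * ((m + 3) ^ 3 * (27 * (3 / 2) ^ j)) / 2 ^ (m + j) := by
        refine div_le_div_of_nonneg_right (mul_le_mul_of_nonneg_left h5 hc) (by positivity)
    _ = c * (m + 3) ^ 3 / 2 ^ m * (27 * (3 / 4) ^ j) := by
        rw [pow_add, div_pow, div_pow]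
        have : (4 : ℝ) ^ j = 2 ^ j * 2 ^ j := by rw [← mul_pow]; norm_num
        rw [this]
        field_simp

/-- **Layer cake.** If `X s ≤ c (m+3)^3` for all but few `s`, precisely: for every `h` at most
`2^n / 2^(h+1)` elements `s` of the finite set `S` (of size at most `2^n`, any set here) have
`X s > c (h+3)^3`, then `∑_{s ∈ 𝒮} X s ≤ c (m+3)^3 (|𝒮| + 81 · 2^n / 2^m)` for all `m` and all
subsets `𝒮`. Proof: let `τ h = c (h+3)^3`; for `h ≥ n` no `s` has `X s > τ h` (the number is less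
than `1`). So with `H = max m n`: `X s ≤ τ m + ∑_{m ≤ h < H} (τ (h+1) - τ h) [X s > τ h]`, and
`∑_{s∈𝒮} X s ≤ |𝒮| τ m + ∑_{m ≤ h < H} (τ (h+1) - τ h) 2^n/2^(h+1)
≤ |𝒮| τ m + 2^n ∑_{h ≥ m} τ (h+1) / 2^(h+1)`, and `τ (m+i) ≤ τ m (1+i/3)^5 ≤ τ m · 27 (3/2)^i`
(`pow_five_le`), so the last sum is at most `τ m 2^{-m} 27 ∑_{i ≥ 1} (3/4)^i = 81 τ m 2^{-m}`. -/
theorem layer_cake3 {S : Type*} [DecidableEq S] (n : ℕ) (X : S → ℝ) (c : ℝ) (hc : 0 ≤ c)
    (U : Finset S) (hX : ∀ h : ℕ, ((U.filter fun s => c * (h + 3) ^ 3 < X s).card : ℝ) * 2 ^ (h + 1)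
      ≤ 2 ^ n) (m : ℕ) (𝒮 : Finset S) (h𝒮 : 𝒮 ⊆ U) :
    ∑ s ∈ 𝒮, X s ≤ c * (m + 3) ^ 3 * (𝒮.card + 81 * 2 ^ n / 2 ^ m) := by
  classical
  set τ : ℕ → ℝ := fun h => c * (h + 3) ^ 3 with hτd
  have hτ : Monotone τ := by
    intro a b hab
    have : (a : ℝ) ≤ b := by exact_mod_cast hab
    simp only [hτd]
    exact mul_le_mul_of_nonneg_left (pow_le_pow_left₀ (by positivity) (by linarith) 3) hc
  have hcount : ∀ h : ℕ, ((𝒮.filter fun s => τ h < X s).card : ℝ) ≤ 2 ^ n / 2 ^ (h + 1) := by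
    intro h
    rw [le_div_iff₀ (by positivity)]
    refine le_trans ?_ (hX h)
    refine mul_le_mul_of_nonneg_right ?_ (by positivity)
    exact Nat.cast_le.2 (Finset.card_le_card (Finset.filter_subset_filter _ h𝒮))
  have htop : ∀ s ∈ 𝒮, X s ≤ τ (m + n) := by
    intro s hs
    by_contra hlt
    rw [not_le] at hlt
    have h1 := hcount (m + n)
    have h2 : 1 ≤ (𝒮.filter fun s => τ (m + n) < X s).card :=
      Finset.card_pos.2 ⟨s, Finset.mem_filter.2 ⟨hs, hlt⟩⟩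
    have h3 : (1 : ℝ) ≤ (𝒮.filter fun s => τ (m + n) < X s).card := by exact_mod_cast h2
    have h4 : (2 : ℝ) ^ n / 2 ^ (m + n + 1) < 1 := by
      rw [div_lt_one (by positivity)]
      exact pow_lt_pow_right₀ (by norm_num) (by omega)
    linarith
  have hsum : ∑ s ∈ 𝒮, X s ≤ ∑ s ∈ 𝒮, (τ m + ∑ i ∈ range n, (τ (m + i + 1) - τ (m + i)) *
      (if τ (m + i) < X s then 1 else 0)) :=
    Finset.sum_le_sum fun s hs => layer_point τ hτ (X s) m n (htop s hs)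
  have hswap : ∑ s ∈ 𝒮, (τ m + ∑ i ∈ range n, (τ (m + i + 1) - τ (m + i)) *
      (if τ (m + i) < X s then 1 else 0)) = 𝒮.card * τ m + ∑ i ∈ range n,
        (τ (m + i + 1) - τ (m + i)) * ((𝒮.filter fun s => τ (m + i) < X s).card : ℝ) := by
    rw [Finset.sum_add_distrib, Finset.sum_const, nsmul_eq_mul, Finset.sum_comm]
    congr 1
    refine Finset.sum_congr rfl fun i _ => ?_
    rw [← Finset.mul_sum, Finset.sum_boole]
  have hterm : ∀ i ∈ range n, (τ (m + i + 1) - τ (m + i)) *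
      ((𝒮.filter fun s => τ (m + i) < X s).card : ℝ) ≤
        2 ^ n * (τ m / 2 ^ m * (27 * (3 / 4) ^ (i + 1))) := by
    intro i _
    have hτ0 : 0 ≤ τ (m + i) := by simp only [hτd]; positivity
    have hd : 0 ≤ τ (m + i + 1) - τ (m + i) := sub_nonneg.2 (hτ (Nat.le_succ _))
    have ht := thr_le3 c hc m (i + 1)
    calc (τ (m + i + 1) - τ (m + i)) * ((𝒮.filter fun s => τ (m + i) < X s).card : ℝ)
        ≤ (τ (m + i + 1) - τ (m + i)) * (2 ^ n / 2 ^ (m + i + 1)) :=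
          mul_le_mul_of_nonneg_left (hcount (m + i)) hd
      _ ≤ τ (m + i + 1) * (2 ^ n / 2 ^ (m + i + 1)) :=
          mul_le_mul_of_nonneg_right (by linarith) (by positivity)
      _ = 2 ^ n * (τ (m + i + 1) / 2 ^ (m + i + 1)) := by ring
      _ ≤ 2 ^ n * (τ m / 2 ^ m * (27 * (3 / 4) ^ (i + 1))) :=
          mul_le_mul_of_nonneg_left ht (by positivity)
  have hgeo : ∑ i ∈ range n, (3 / 4 : ℝ) ^ (i + 1) ≤ 3 := by
    have h1 : ∑ i ∈ range n, (3 / 4 : ℝ) ^ (i + 1) = 3 / 4 * ∑ i ∈ range n, (3 / 4 : ℝ) ^ i := by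
      rw [Finset.mul_sum]
      exact Finset.sum_congr rfl fun i _ => by rw [pow_succ]; ring
    have h2 : ∑ i ∈ range n, (3 / 4 : ℝ) ^ i ≤ 4 := by
      rw [geom_sum_eq (by norm_num)]
      have : (0 : ℝ) < (3 / 4) ^ n := by positivity
      have e : ((3 / 4 : ℝ) ^ n - 1) / (3 / 4 - 1) = 4 * (1 - (3 / 4) ^ n) := by ring
      rw [e]
      linarith
    linarith
  have hτm : 0 ≤ τ m := by simp only [hτd]; positivity
  calc ∑ s ∈ 𝒮, X s ≤ 𝒮.card * τ m + ∑ i ∈ range n,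
        (τ (m + i + 1) - τ (m + i)) * ((𝒮.filter fun s => τ (m + i) < X s).card : ℝ) := by
        rw [← hswap]; exact hsum
    _ ≤ 𝒮.card * τ m + ∑ i ∈ range n, 2 ^ n * (τ m / 2 ^ m * (27 * (3 / 4) ^ (i + 1))) := by
        exact add_le_add le_rfl (Finset.sum_le_sum hterm)
    _ = 𝒮.card * τ m + 2 ^ n * (τ m / 2 ^ m * (27 * ∑ i ∈ range n, (3 / 4 : ℝ) ^ (i + 1))) := by
        rw [Finset.mul_sum, Finset.mul_sum, Finset.mul_sum]
    _ ≤ 𝒮.card * τ m + 2 ^ n * (τ m / 2 ^ m * (27 * 3)) := by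
        gcongr
    _ = c * (m + 3) ^ 3 * (𝒮.card + 81 * 2 ^ n / 2 ^ m) := by
        simp only [hτd]; ring

end Pool.Agent.ConvG
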