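import Pool.Agent.ConvG.Pattern
import Pool.Agent.ConvG.Layer
import Pool.Agent.ConvF.Defs

/-!
# Relations without long triangular sequences are small

As `Pool.Agent.ConvF.CombA`, with `pattern2` in the place of `pattern`, for colourings that agree with
`ρ` on a set `I` and triples disjoint from `I`: projections `8 L (h+3)²`, tail `23 L√L (h+3)³`.
-/

namespace Pool.Agent.ConvG

open Finset Pool.Agent.ConvF Pool.Agent.H98.ConicCount

open scoped Classical in
/-- The number of triples `t` with `M t s`, roles `role (t i) = i` and middle colour `c`. -/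
noncomputable def Xrc {n : ℕ} (M : Tri n → (Fin n → Bool) → Prop) (role : Fin n → Fin 3) (c : Bool)
    (s : Fin n → Bool) : ℕ :=
  (univ.filter fun t : Tri n => M t s ∧ (∀ i, role (t i) = i) ∧ s (t 1) = c).card

/-- the colourings that agree with `ρ` on `I` -/
def cube {n : ℕ} (I : Finset (Fin n)) (ρ : Fin n → Bool) : Finset (Fin n → Bool) :=
  univ.filter fun s => ∀ x ∈ I, s x = ρ x

theorem mem_cube {n : ℕ} {I : Finset (Fin n)} {ρ s : Fin n → Bool} :
    s ∈ cube I ρ ↔ ∀ x ∈ I, s x = ρ x := by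
  simp [cube]

/-- the target colour -/
private def ctgt {n : ℕ} (role : Fin n → Fin 3) (c : Bool) (x : Fin n) : Bool :=
  if role x = 1 then c else !c

/-- the vertices with their target colour -/
private def zset {n : ℕ} (role : Fin n → Fin 3) (c : Bool) (s : Fin n → Bool) : Finset (Fin n) :=
  univ.filter fun x => s x = ctgt role c x

private theorem mem_zset {n : ℕ} {role : Fin n → Fin 3} {c : Bool} {s : Fin n → Bool} {x : Fin n} :
    x ∈ zset role c s ↔ s x = ctgt role c x := by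
  simp [zset]

private theorem zset_inj {n : ℕ} (role : Fin n → Fin 3) (c : Bool) :
    Function.Injective (zset role c) := by
  intro s s' h
  ext x
  have h1 : x ∈ zset role c s ↔ x ∈ zset role c s' := by rw [h]
  rw [mem_zset, mem_zset] at h1
  revert h1
  cases s x <;> cases s' x <;> cases ctgt role c x <;> simp

private theorem tgt_tri {n : ℕ} {role : Fin n → Fin 3} {c : Bool} {t : Tri n}
    (h : ∀ i, role (t i) = i) :
    ctgt role c (t 0) = !c ∧ ctgt role c (t 1) = c ∧ ctgt role c (t 2) = !c := by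
  refine ⟨?_, ?_, ?_⟩
  · rw [ctgt, h 0, if_neg (by decide)]
  · rw [ctgt, h 1, if_pos rfl]
  · rw [ctgt, h 2, if_neg (by decide)]

private theorem sep_zset {n : ℕ} {role : Fin n → Fin 3} {c : Bool} {t : Tri n}
    (h : ∀ i, role (t i) = i) {s : Fin n → Bool} (hs : SepBy t s) (a : Fin 3) :
    t a ∈ zset role c s ↔ s (t 1) = c := by
  obtain ⟨h0, h1, h2⟩ := tgt_tri (c := c) h
  obtain ⟨h3, h4⟩ := hs
  rw [mem_zset]
  fin_cases a
  · change s (t 0) = ctgt role c (t 0) ↔ _
    rw [h0, h3]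
    simp
  · change s (t 1) = ctgt role c (t 1) ↔ _
    rw [h1]
  · change s (t 2) = ctgt role c (t 2) ↔ _
    rw [h2, h4]
    simp

open scoped Classical in
private theorem tail_proj {n : ℕ} (M : Tri n → (Fin n → Bool) → Prop)
    (hM : ∀ t s, M t s → SepBy t s) (I : Finset (Fin n)) (ρ : Fin n → Bool)
    (hMI : ∀ t s, M t s → ∀ i, t i ∉ I)
    (L : ℕ) (hL : TriLE M L) (role : Fin n → Fin 3) (c : Bool)
    (h : ℕ) (i j k : Fin 3) (σ : Fin 3 → Fin 3) (hi : σ i = 0) (hj : σ j = 1) (hk : σ k = 2)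
    (hall : ∀ a : Fin 3, a = i ∨ a = j ∨ a = k) :
    (((cube I ρ).filter fun s : Fin n → Bool => 8 * L * (h + 3) ^ 2 + 1 ≤
      ((univ.filter fun t : Tri n => M t s ∧ (∀ i, role (t i) = i) ∧ s (t 1) = c).image
        fun t => (t i, t j)).card).card : ℝ) * 2 ^ (h + 3) ≤ 2 ^ (n - I.card) := by
  set S := (cube I ρ).filter fun s : Fin n → Bool => 8 * L * (h + 3) ^ 2 + 1 ≤
      ((univ.filter fun t : Tri n => M t s ∧ (∀ i, role (t i) = i) ∧ s (t 1) = c).image
        fun t => (t i, t j)).card with hS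
  set R : Fin n → Fin n → Fin n → Finset (Fin n) → Prop := fun x y w z =>
    ∃ (t : Tri n) (s : Fin n → Bool), M t s ∧ (∀ i, role (t i) = i) ∧ s (t 1) = c ∧
      zset role c s = z ∧ t i = x ∧ t j = y ∧ t k = w with hR
  have hpat := pattern2 (V := Fin n) (fun x => σ (role x)) R (by
      rintro x y w z ⟨t, s, hMt, hr, hc, rfl, rfl, rfl, rfl⟩
      have hmem : ∀ a, t a ∈ zset role c s := fun a => (sep_zset hr (hM t s hMt) a).mpr hc
      refine ⟨⟨?_, ?_, ?_⟩, hmem i, hmem j, hmem k⟩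
      · change σ (role (t i)) = 0
        rw [hr, hi]
      · change σ (role (t j)) = 1
        rw [hr, hj]
      · change σ (role (t k)) = 2
        rw [hr, hk]) L (by
      intro G w z hG hGG
      have hex : ∀ e : G, ∃ (t : Tri n) (s : Fin n → Bool), M t s ∧ (∀ i, role (t i) = i) ∧
          s (t 1) = c ∧ zset role c s = z e ∧ t i = e.1.1 ∧ t j = e.1.2 ∧ t k = w e :=
        fun e => hG e.1 e.2
      choose t s hMt hr hc hz hti htj htk using hex
      have hcard : Fintype.card G = G.card := Fintype.card_coe G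
      let f : Fin G.card ≃ G := (Fintype.equivFinOfCardEq hcard).symm
      refine hL G.card (fun a => t (f a)) (fun a => s (f a)) (fun a => hMt _) ?_
      intro a b hab hsep
      have hne : (f b : Fin n × Fin n) ≠ f a := fun he =>
        hab.ne (f.injective (Subtype.ext he))
      obtain ⟨h1, h2⟩ := hGG (f b) (f b).2 (f a) (f a).2 hne
      rw [← hz (f a), ← hti (f b), ← htj (f b), ← htk (f b)] at h1 h2
      rw [sep_zset (hr (f b)) hsep, sep_zset (hr (f b)) hsep, sep_zset (hr (f b)) hsep] at h1 h2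
      rcases h1 with h1 | h1 | h1 <;> exact h2 ⟨h1, h1, h1⟩)
    I (S.image (zset role c)) (by
      intro z hz z' hz'
      rw [mem_image] at hz hz'
      obtain ⟨s, hs, rfl⟩ := hz
      obtain ⟨s', hs', rfl⟩ := hz'
      rw [hS, mem_filter, mem_cube] at hs hs'
      ext x
      rw [mem_inter, mem_inter, mem_zset, mem_zset]
      constructor
      · rintro ⟨h1, h2⟩
        exact ⟨by rw [hs'.1 x h2, ← hs.1 x h2, h1], h2⟩
      · rintro ⟨h1, h2⟩
        exact ⟨by rw [hs.1 x h2, ← hs'.1 x h2, h1], h2⟩) (8 * L * (h + 3) ^ 2 + 1)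
    (fun z => univ.filter fun e => ∃ w, R e.1 e.2 w z)
    (fun z _ e he => by simpa using he) (by
      intro z _ e he
      rw [mem_filter] at he
      obtain ⟨w, t, s, hMt, -, -, -, ht1, ht2, -⟩ := he.2
      rw [← ht1, ← ht2]
      exact ⟨hMI t s hMt i, hMI t s hMt j⟩) (by
      intro z hz
      rw [mem_image] at hz
      obtain ⟨s, hs, rfl⟩ := hz
      rw [hS, mem_filter] at hs
      refine hs.2.trans (card_le_card ?_)
      intro e he
      rw [mem_image] at he
      obtain ⟨t, ht, rfl⟩ := he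
      rw [mem_filter] at ht ⊢
      exact ⟨mem_univ _, t k, t, s, ht.2.1, ht.2.2.1, ht.2.2.2, rfl, rfl, rfl, rfl⟩)
    (q := 1 / ((h : ℝ) + 3)) (by positivity) (by
      rw [div_le_one (by positivity)]
      have : (0 : ℝ) ≤ h := Nat.cast_nonneg h
      linarith)
  rw [card_image_of_injective _ (zset_inj role c), Fintype.card_fin] at hpat
  obtain ⟨d, hd⟩ : ∃ d, d = (S.card : ℝ) / 2 ^ (n - I.card) := ⟨_, rfl⟩
  have hd0 : 0 ≤ d := by rw [hd]; positivity
  have hh0 : (0 : ℝ) ≤ h := Nat.cast_nonneg h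
  rw [← hd] at hpat
  obtain ⟨y, hy⟩ : ∃ y, y = d ^ (1 / ((h : ℝ) + 3)) := ⟨_, rfl⟩
  have hy0 : 0 ≤ y := by rw [hy]; exact Real.rpow_nonneg hd0 _
  rw [← hy] at hpat
  have h3 : (0 : ℝ) < (h : ℝ) + 3 := by linarith
  have hylt : y < 1 / 2 := by
    by_contra hcon
    push Not at hcon
    have h4 : ((8 * L * (h + 3) ^ 2 + 1 : ℕ) : ℝ) * (1 / ((h : ℝ) + 3)) ^ 2 =
        8 * L + (1 / ((h : ℝ) + 3)) ^ 2 := by
      push_cast
      field_simp
    rw [h4] at hpat
    have h5 : (0 : ℝ) < (1 / ((h : ℝ) + 3)) ^ 2 := by positivity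
    have h6 : (0 : ℝ) ≤ L := Nat.cast_nonneg L
    have h7 : (8 * (L : ℝ) + (1 / ((h : ℝ) + 3)) ^ 2) * (1 / 2) ≤
        (8 * (L : ℝ) + (1 / ((h : ℝ) + 3)) ^ 2) * y :=
      mul_le_mul_of_nonneg_left hcon (by positivity)
    linarith
  have hdy : d = y ^ (h + 3) := by
    rw [hy, ← Real.rpow_natCast, ← Real.rpow_mul hd0]
    push_cast
    rw [one_div_mul_cancel h3.ne', Real.rpow_one]
  have hd1 : d ≤ (1 / 2) ^ (h + 3) := by
    rw [hdy]
    exact pow_le_pow_left₀ hy0 hylt.le _
  rw [hd, div_le_iff₀ (by positivity)] at hd1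
  calc (S.card : ℝ) * 2 ^ (h + 3) ≤ (1 / 2) ^ (h + 3) * 2 ^ (n - I.card) * 2 ^ (h + 3) :=
        mul_le_mul_of_nonneg_right hd1 (by positivity)
    _ = ((1 / 2) * 2) ^ (h + 3) * 2 ^ (n - I.card) := by rw [mul_pow]; ring
    _ = 2 ^ (n - I.card) := by norm_num

open scoped Classical in
theorem tail {n : ℕ} (M : Tri n → (Fin n → Bool) → Prop) (hM : ∀ t s, M t s → SepBy t s)
    (I : Finset (Fin n)) (ρ : Fin n → Bool) (hMI : ∀ t s, M t s → ∀ i, t i ∉ I)
    (L : ℕ) (hL : TriLE M L) (role : Fin n → Fin 3) (c : Bool) (h : ℕ) :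
    (((cube I ρ).filter fun s : Fin n → Bool =>
      23 * (L * √L) * ((h : ℝ) + 3) ^ 3 < (Xrc M role c s : ℝ)).card : ℝ) * 2 ^ (h + 1) ≤
      2 ^ (n - I.card) := by
  have p1 := tail_proj M hM I ρ hMI L hL role c h 0 1 2 id rfl rfl rfl (by decide)
  have p2 := tail_proj M hM I ρ hMI L hL role c h 0 2 1 ![0, 2, 1] rfl rfl rfl (by decide)
  have p3 := tail_proj M hM I ρ hMI L hL role c h 1 2 0 ![2, 0, 1] rfl rfl rfl (by decide)
  set T : (Fin n → Bool) → Finset (Tri n) := fun s =>
    univ.filter fun t : Tri n => M t s ∧ (∀ i, role (t i) = i) ∧ s (t 1) = c with hT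
  set S1 := (cube I ρ).filter fun s : Fin n → Bool => 8 * L * (h + 3) ^ 2 + 1 ≤
    ((T s).image fun t => (t 0, t 1)).card
  set S2 := (cube I ρ).filter fun s : Fin n → Bool => 8 * L * (h + 3) ^ 2 + 1 ≤
    ((T s).image fun t => (t 0, t 2)).card
  set S3 := (cube I ρ).filter fun s : Fin n → Bool => 8 * L * (h + 3) ^ 2 + 1 ≤
    ((T s).image fun t => (t 1, t 2)).card
  have hsub : ((cube I ρ).filter fun s : Fin n → Bool =>
      23 * (L * √L) * ((h : ℝ) + 3) ^ 3 < (Xrc M role c s : ℝ)) ⊆ S1 ∪ (S2 ∪ S3) := by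
    intro s hs
    rw [mem_filter] at hs
    have hs1 := hs.1
    have hs2 := hs.2
    by_contra hcon
    rw [mem_union, mem_union, mem_filter, mem_filter, mem_filter] at hcon
    push Not at hcon
    obtain ⟨h1, h2, h3⟩ := hcon
    replace h1 := Nat.lt_succ_iff.mp (h1 hs1)
    replace h2 := Nat.lt_succ_iff.mp (h2 hs1)
    replace h3 := Nat.lt_succ_iff.mp (h3 hs1)
    have hLW := loomis_whitney ((T s).image fun t : Tri n => (t 0, t 1, t 2))
    rw [image_image, image_image, image_image] at hLW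
    have hcard : ((T s).image fun t : Tri n => (t 0, t 1, t 2)).card = Xrc M role c s := by
      rw [card_image_of_injective]
      · rfl
      · intro t t' htt
        simp only [Prod.mk.injEq] at htt
        ext a
        fin_cases a
        · exact congrArg Fin.val htt.1
        · exact congrArg Fin.val htt.2.1
        · exact congrArg Fin.val htt.2.2
    rw [hcard] at hLW
    have h4 : Xrc M role c s ^ 2 ≤ (8 * L * (h + 3) ^ 2) * (8 * L * (h + 3) ^ 2) *
        (8 * L * (h + 3) ^ 2) :=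
      hLW.trans (Nat.mul_le_mul (Nat.mul_le_mul h1 h2) h3)
    have h5 : ((Xrc M role c s : ℕ) : ℝ) ^ 2 ≤ (8 * L * ((h : ℝ) + 3) ^ 2) *
        (8 * L * ((h : ℝ) + 3) ^ 2) * (8 * L * ((h : ℝ) + 3) ^ 2) := by exact_mod_cast h4
    have hL0 : (0 : ℝ) ≤ L := Nat.cast_nonneg L
    have hh0 : (0 : ℝ) ≤ h := Nat.cast_nonneg h
    have h6 : (23 * (L * √L) * ((h : ℝ) + 3) ^ 3) ^ 2 < ((Xrc M role c s : ℕ) : ℝ) ^ 2 :=
      pow_lt_pow_left₀ hs2 (by positivity) two_ne_zero
    have h7 : (√(L : ℝ)) ^ 2 = L := Real.sq_sqrt hL0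
    have h8 : (23 * (L * √L) * ((h : ℝ) + 3) ^ 3) ^ 2 =
        529 * ((L : ℝ) ^ 3 * ((h : ℝ) + 3) ^ 6) := by
      calc (23 * (L * √L) * ((h : ℝ) + 3) ^ 3) ^ 2 =
          529 * ((L : ℝ) ^ 2 * (√(L : ℝ)) ^ 2) * ((h : ℝ) + 3) ^ 6 := by ring
        _ = _ := by rw [h7]; ring
    have h9 : (8 * (L : ℝ) * ((h : ℝ) + 3) ^ 2) * (8 * L * ((h : ℝ) + 3) ^ 2) *
        (8 * L * ((h : ℝ) + 3) ^ 2) = 512 * ((L : ℝ) ^ 3 * ((h : ℝ) + 3) ^ 6) := by ring
    have h10 : 0 ≤ (L : ℝ) ^ 3 * ((h : ℝ) + 3) ^ 6 := by positivity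
    rw [h8] at h6
    rw [h9] at h5
    linarith
  have hle : (((cube I ρ).filter fun s : Fin n → Bool =>
      23 * (L * √L) * ((h : ℝ) + 3) ^ 3 < (Xrc M role c s : ℝ)).card : ℝ) ≤
      S1.card + (S2.card + S3.card) := by
    have := (card_le_card hsub).trans ((card_union_le _ _).trans
      (Nat.add_le_add_left (card_union_le _ _) _))
    exact_mod_cast this
  have e1 : (2 : ℝ) ^ (h + 3) = 4 * 2 ^ (h + 1) := by ring
  rw [e1] at p1 p2 p3
  have e2 := mul_le_mul_of_nonneg_right hle (by positivity : (0 : ℝ) ≤ 2 ^ (h + 1))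
  have e3 : (0 : ℝ) < 2 ^ (n - I.card) := by positivity
  linarith

/-- the number of role functions with `role (t i) = i` -/
private theorem card_roles {n : ℕ} (t : Tri n) :
    27 * (univ.filter fun role : Fin n → Fin 3 => ∀ i, role (t i) = i).card = 3 ^ n := by
  classical
  let f : Fin n → Finset (Fin 3) := fun x =>
    if x = t 0 then {0} else if x = t 1 then {1} else if x = t 2 then {2} else univ
  have h01 : t 1 ≠ t 0 := fun h => by simpa using t.injective h
  have h02 : t 2 ≠ t 0 := fun h => by simpa using t.injective h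
  have h12 : t 2 ≠ t 1 := fun h => by simpa using t.injective h
  have h1 : (univ.filter fun role : Fin n → Fin 3 => ∀ i, role (t i) = i) =
      Fintype.piFinset f := by
    ext role
    rw [mem_filter, Fintype.mem_piFinset]
    simp only [mem_univ, true_and]
    constructor
    · intro h x
      simp only [f]
      split_ifs with a b c
      · rw [a, h 0]; simp
      · rw [b, h 1]; simp
      · rw [c, h 2]; simp
      · exact mem_univ _
    · intro h i
      fin_cases i
      · have := h (t 0)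
        simpa [f] using this
      · have := h (t 1)
        simpa [f, h01] using this
      · have := h (t 2)
        simpa [f, h02, h12] using this
  have h2 : ∏ x : Fin n, (if x ∈ verts t then 3 else 1) = 27 := by
    rw [Finset.prod_ite_mem, Finset.univ_inter, prod_const, card_verts]
    norm_num
  rw [h1, Fintype.card_piFinset, ← h2, ← prod_mul_distrib]
  have h3 : ∀ x : Fin n, (if x ∈ verts t then 3 else 1) * (f x).card = 3 := by
    intro x
    have hm := mem_verts t x
    simp only [f]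
    by_cases a : x = t 0
    · rw [if_pos (hm.mpr (Or.inl a)), if_pos a]; simp
    by_cases b : x = t 1
    · rw [if_pos (hm.mpr (Or.inr (Or.inl b))), if_neg a, if_pos b]; simp
    by_cases c : x = t 2
    · rw [if_pos (hm.mpr (Or.inr (Or.inr c))), if_neg a, if_neg b, if_pos c]; simp
    · rw [if_neg (fun h => by rcases hm.mp h with h | h | h <;> contradiction), if_neg a, if_neg b,
        if_neg c]
      simp
  rw [prod_congr rfl fun x _ => h3 x]
  simp

open scoped Classical in
theorem combA {n : ℕ} (M : Tri n → (Fin n → Bool) → Prop) (hM : ∀ t s, M t s → SepBy t s)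
    (I : Finset (Fin n)) (ρ : Fin n → Bool) (hMI : ∀ t s, M t s → ∀ i, t i ∉ I)
    (L : ℕ) (hL : TriLE M L) (m : ℕ) (𝒮 : Finset (Fin n → Bool)) (h𝒮 : 𝒮 ⊆ cube I ρ) :
    ∑ s ∈ 𝒮, ((univ.filter fun t : Tri n => M t s).card : ℝ) ≤
      1242 * (L * √L) * (m + 3) ^ 3 * (𝒮.card + 81 * 2 ^ (n - I.card) / 2 ^ m) := by
  have hsum : ∀ s : Fin n → Bool, (3 : ℝ) ^ n * ((univ.filter fun t : Tri n => M t s).card : ℝ) =
      27 * ∑ role : Fin n → Fin 3, ∑ c : Bool, (Xrc M role c s : ℝ) := by
    intro s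
    have h1 : ∀ role : Fin n → Fin 3, ∑ c : Bool, Xrc M role c s =
        ∑ t ∈ univ.filter fun t : Tri n => M t s, if ∀ i, role (t i) = i then 1 else 0 := by
      intro role
      rw [Fintype.sum_bool]
      unfold Xrc
      rw [← card_union_of_disjoint, ← sum_filter, sum_const, smul_eq_mul, mul_one]
      · congr 1
        ext t
        simp only [mem_union, mem_filter, mem_univ, true_and]
        cases s (t 1) <;> simp
      · rw [disjoint_left]
        intro t ht ht'
        rw [mem_filter] at ht ht'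
        rw [ht.2.2.2] at ht'
        exact absurd ht'.2.2.2 (by simp)
    have h2 : 3 ^ n * (univ.filter fun t : Tri n => M t s).card =
        27 * ∑ role : Fin n → Fin 3, ∑ c : Bool, Xrc M role c s := by
      rw [sum_congr rfl fun role _ => h1 role, sum_comm, mul_sum]
      rw [sum_congr rfl fun t _ => by
        rw [← sum_filter, sum_const, smul_eq_mul, mul_one, card_roles t]]
      rw [sum_const, smul_eq_mul, mul_comm]
    exact_mod_cast h2
  have hcake : ∀ (role : Fin n → Fin 3) (c : Bool), ∑ s ∈ 𝒮, (Xrc M role c s : ℝ) ≤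
      23 * (L * √L) * (m + 3) ^ 3 * (𝒮.card + 81 * 2 ^ (n - I.card) / 2 ^ m) := by
    intro role c
    exact layer_cake3 (n - I.card) (fun s => (Xrc M role c s : ℝ)) (23 * (L * √L)) (by positivity)
      (cube I ρ) (fun h => tail M hM I ρ hMI L hL role c h) m 𝒮 h𝒮
  obtain ⟨B, hB⟩ : ∃ B, B = 23 * (L * √L) * ((m : ℝ) + 3) ^ 3 *
      (𝒮.card + 81 * 2 ^ (n - I.card) / 2 ^ m) := ⟨_, rfl⟩
  have h3 : (3 : ℝ) ^ n * ∑ s ∈ 𝒮, ((univ.filter fun t : Tri n => M t s).card : ℝ) ≤
      3 ^ n * (54 * B) := by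
    rw [mul_sum, sum_congr rfl fun s _ => hsum s, ← mul_sum, sum_comm]
    have h4 : ∑ role : Fin n → Fin 3, ∑ s ∈ 𝒮, ∑ c : Bool, (Xrc M role c s : ℝ) ≤
        ∑ role : Fin n → Fin 3, (2 * B) := by
      refine sum_le_sum fun role _ => ?_
      rw [sum_comm, Fintype.sum_bool]
      have a1 := hcake role true
      have a2 := hcake role false
      rw [← hB] at a1 a2
      linarith
    rw [sum_const, nsmul_eq_mul, card_univ, Fintype.card_fun, Fintype.card_fin, Fintype.card_fin]
      at h4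
    push_cast at h4
    linarith
  have h5 := le_of_mul_le_mul_left h3 (by positivity)
  refine h5.trans (le_of_eq ?_)
  rw [hB]
  ring

end Pool.Agent.ConvG
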