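import Pool.Agent.ConvF.CutW

/-!
# Weights of cuts, close to the range `[1, 2]`
-/

namespace Pool.Agent.ConvG

open Finset Pool.Agent.ConvF Pool.Agent.H98.ConicCount

variable {n : ℕ}

/-- The basic weights. -/
noncomputable def baseE (c : ℝ) (n : ℕ) (u v : Fin n) : ℝ :=
  if (InK n u ↔ InK n v) then 2 + 2 * c else 1 + c

/-- The weights of a cut. -/
noncomputable def cutE (c : ℝ) (s : Fin n → Bool) (u v : Fin n) : ℝ :=
  if u = v then 0 else baseE c n u v + if s u = s v then 0 else c

theorem baseE_bounds {c : ℝ} (hc : 0 < c) (u v : Fin n) :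
    1 + c ≤ baseE c n u v ∧ baseE c n u v ≤ 2 + 2 * c := by
  unfold baseE
  split_ifs <;> constructor <;> linarith

theorem baseE_comm (c : ℝ) (u v : Fin n) : baseE c n u v = baseE c n v u := by
  unfold baseE
  simp only [iff_comm]

theorem cutE_bounds {c : ℝ} (hc : 0 < c) (s : Fin n → Bool) {u v : Fin n} (h : u ≠ v) :
    1 + c ≤ cutE c s u v ∧ cutE c s u v ≤ 2 + 3 * c := by
  obtain ⟨h1, h2⟩ := baseE_bounds hc u v
  unfold cutE
  rw [if_neg h]
  split_ifs <;> constructor <;> linarith

theorem cutE_nonneg {c : ℝ} (hc : 0 < c) (s : Fin n → Bool) (u v : Fin n) : 0 ≤ cutE c s u v := by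
  by_cases h : u = v
  · rw [h]
    unfold cutE
    rw [if_pos rfl]
  · linarith [(cutE_bounds hc s h).1]

theorem cutE_comm (c : ℝ) (s : Fin n → Bool) (u v : Fin n) : cutE c s u v = cutE c s v u := by
  unfold cutE
  rw [baseE_comm c u v]
  simp only [eq_comm]

theorem cutE_self (c : ℝ) (s : Fin n → Bool) (u : Fin n) : cutE c s u u = 0 := by
  unfold cutE
  rw [if_pos rfl]

theorem cutE_tri {c : ℝ} (hc : 0 < c) (s : Fin n → Bool) (u v w : Fin n) :
    cutE c s u w ≤ cutE c s u v + cutE c s v w := by
  by_cases h1 : u = v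
  · subst h1
    rw [cutE_self, zero_add]
  · by_cases h2 : v = w
    · subst h2
      rw [cutE_self, add_zero]
    · by_cases h3 : u = w
      · subst h3
        rw [cutE_self]
        exact add_nonneg (cutE_nonneg hc s _ _) (cutE_nonneg hc s _ _)
      · have a1 := baseE_bounds hc u v
        have a2 := baseE_bounds hc v w
        have a3 := baseE_bounds hc u w
        unfold cutE
        rw [if_neg h1, if_neg h2, if_neg h3]
        have h4 : (if s u = s w then (0 : ℝ) else c) ≤
            (if s u = s v then (0 : ℝ) else c) + if s v = s w then (0 : ℝ) else c := by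
          cases s u <;> cases s v <;> cases s w <;> simp <;> linarith
        linarith

theorem dist_cutE {c : ℝ} (hc : 0 < c) (s : Fin n → Bool) : ConvF.dist (cutE c s) = cutE c s :=
  dist_eq_self (cutE_self c s) (cutE_nonneg hc s) (cutE_tri hc s)

theorem slack_cutE (c : ℝ) {t : Tri n} (ht : TK t) (s : Fin n → Bool) :
    cutE c s (t 0) (t 1) + cutE c s (t 1) (t 2) - cutE c s (t 0) (t 2) =
      if SepBy t s then 2 * c else 0 := by
  have h01 : t 0 ≠ t 1 := fun h => by simpa using t.injective h
  have h12 : t 1 ≠ t 2 := fun h => by simpa using t.injective h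
  have h02 : t 0 ≠ t 2 := fun h => by simpa using t.injective h
  obtain ⟨k1, k0, k2⟩ := ht
  have b01 : baseE c n (t 0) (t 1) = 1 + c := if_neg (by tauto)
  have b12 : baseE c n (t 1) (t 2) = 1 + c := if_neg (by tauto)
  have b02 : baseE c n (t 0) (t 2) = 2 + 2 * c := if_pos (by tauto)
  unfold cutE
  rw [if_neg h01, if_neg h12, if_neg h02, b01, b12, b02]
  by_cases h : SepBy t s
  · rw [if_pos h]
    obtain ⟨h1, h2⟩ := h
    rw [h1, h2]
    cases s (t 1) <;> simp <;> ring
  · rw [if_neg h]
    unfold SepBy at h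
    revert h
    cases s (t 0) <;> cases s (t 1) <;> cases s (t 2) <;> simp <;> ring

end Pool.Agent.ConvG
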