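import Pool.Agent.ConvF.GeoAbs

/-!
# The combinatorial cover, abstract form, arbitrarily short extrapolation

As `Pool.Agent.ConvF.geoAbs`, with any `η > 0` in the place of `1/10`.
-/

namespace Pool.Agent.ConvG

open Finset Filter Topology Pool.Agent.ConvF Pool.Agent.H98.ConicCount

theorem geoAbs {n : ℕ} {Z : Type*} [AddCommGroup Z] [Module ℝ Z] {ι : Type*} [Finite ι]
    {E : ι → Type*} [∀ b, AddCommGroup (E b)] [∀ b, Module ℝ (E b)] (C : ∀ b, Set (E b))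
    (hC : ∀ b, Convex ℝ (C b)) (A : ∀ b, Z →ᵃ[ℝ] E b) (𝒮 : Finset (Fin n → Bool))
    (q : (Fin n → Bool) → Z) (hq : ∀ s ∈ 𝒮, ∀ b, A b (q s) ∈ C b) (T : Tri n → Prop)
    (φ : Tri n → Z →ᵃ[ℝ] ℝ) (hφ0 : ∀ t, T t → ∀ s ∈ 𝒮, ¬ SepBy t s → φ t (q s) = 0)
    (hφ1 : ∀ t, T t → ∀ s ∈ 𝒮, SepBy t s → 0 < φ t (q s)) (η : ℝ) (hη : 0 < η)
    (hval : ∀ t, T t → ∀ p ∈ convexHull ℝ (q '' (𝒮 : Set (Fin n → Bool))), ∀ s ∈ 𝒮, ∀ ε : ℝ,
      0 < ε → ε ≤ η → (∀ b, A b ((1 + ε) • p - ε • q s) ∈ C b) →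
      0 ≤ φ t ((1 + ε) • p - ε • q s))
    (ℓ : ι → ℕ) (hℓ : ∀ b, ChainsLE (C b) (ℓ b)) :
    ∃ M : Option ι → Tri n → (Fin n → Bool) → Prop,
      (∀ b t s, M b t s → SepBy t s) ∧
      (∀ s ∈ 𝒮, ∀ t, T t → SepBy t s → ∃ b, M b t s) ∧
      TriLE (M none) 1 ∧ ∀ b, TriLE (M (some b)) (ℓ b + 1) := by
  classical
  set K : Set Z := convexHull ℝ (q '' (𝒮 : Set (Fin n → Bool))) with hK
  have hKconv : Convex ℝ K := convex_convexHull ℝ _
  have hqK : ∀ s ∈ 𝒮, q s ∈ K := fun s hs => subset_convexHull ℝ _ ⟨s, hs, rfl⟩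
  have hKC : ∀ b, ∀ z ∈ K, A b z ∈ C b := by
    intro b z hz
    have h1 : K ⊆ (A b) ⁻¹' (C b) := by
      apply convexHull_min
      · rintro _ ⟨s, hs, rfl⟩
        exact hq s hs b
      · exact (hC b).affine_preimage (A b)
    exact h1 hz
  let N : Tri n → Finset (Fin n → Bool) := fun t => 𝒮.filter fun s => ¬ SepBy t s
  have hp : ∀ t, ∃ p : Z, (N t).Nonempty → p ∈ K ∧
      (∀ s ∈ N t, ∃ z ∈ K, ∃ θ : ℝ, 0 < θ ∧ θ ≤ 1 ∧ p = θ • q s + (1 - θ) • z) ∧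
      ∀ ψ : Z →ᵃ[ℝ] ℝ, (∀ s ∈ N t, ψ (q s) = 0) → ψ p = 0 := by
    intro t
    by_cases h : (N t).Nonempty
    · obtain ⟨p, h1, h2, h3⟩ := exists_avg hKconv (N t) h q
        (fun s hs => hqK s (mem_filter.1 hs).1)
      exact ⟨p, fun _ => ⟨h1, h2, h3⟩⟩
    · exact ⟨0, fun h' => absurd h' h⟩
  choose p hp using hp
  -- the points of non-separating cuts are in the faces
  have hmem : ∀ b t s, s ∈ N t → A b (q s) ∈ minFace (C b) (A b (p t)) := by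
    intro b t s hs
    obtain ⟨h1, h2, -⟩ := hp t ⟨s, hs⟩
    obtain ⟨z, hz, θ, hθ, hθ1, hpz⟩ := h2 s hs
    refine mem_minFace (hC b) hθ hθ1 (hq s (mem_filter.1 hs).1 b) (hKC b z hz) ?_
    rw [hpz, aff_combo]
  let M : Option ι → Tri n → (Fin n → Bool) → Prop := fun o t s =>
    match o with
    | none => s ∈ 𝒮 ∧ T t ∧ SepBy t s ∧ ¬ (N t).Nonempty
    | some b => s ∈ 𝒮 ∧ T t ∧ SepBy t s ∧ (N t).Nonempty ∧
        A b (q s) ∉ minFace (C b) (A b (p t))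
  refine ⟨M, ?_, ?_, ?_, ?_⟩
  · rintro (_ | b) t s h
    · exact h.2.2.1
    · exact h.2.2.1
  · intro s hs t hT hsep
    by_cases hN : (N t).Nonempty
    · by_contra hcon
      push Not at hcon
      have h1 : ∀ b, A b (q s) ∈ minFace (C b) (A b (p t)) := by
        intro b
        by_contra h
        exact hcon (some b) ⟨hs, hT, hsep, hN, h⟩
      obtain ⟨hpK, -, hp0⟩ := hp t hN
      have h2 : ∀ᶠ ε : ℝ in 𝓝[>] 0, ∀ b, A b ((1 + ε) • p t - ε • q s) ∈ C b := by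
        rw [eventually_all]
        intro b
        obtain ⟨-, ε₀, hε₀, hε₁⟩ := h1 b
        have h3 : Set.Ioo (0 : ℝ) ε₀ ∈ 𝓝[>] (0 : ℝ) := Ioo_mem_nhdsGT hε₀
        filter_upwards [h3] with ε hε
        rw [aff_extrap]
        have h4 : (1 + ε) • A b (p t) - ε • A b (q s) =
            (ε / ε₀) • ((1 + ε₀) • A b (p t) - ε₀ • A b (q s)) + (1 - ε / ε₀) • A b (p t) := by
          have h5 : ε / ε₀ * ε₀ = ε := by field_simp
          rw [smul_sub, smul_smul, smul_smul, h5, mul_add, h5, mul_one]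
          module
        rw [h4]
        have h6 : ε / ε₀ ≤ 1 := (div_le_one hε₀).2 hε.2.le
        exact hC b hε₁ (hKC b _ hpK) (div_nonneg hε.1.le hε₀.le) (by linarith) (by ring)
      have h3 : Set.Ioo (0 : ℝ) η ∈ 𝓝[>] (0 : ℝ) := Ioo_mem_nhdsGT hη
      obtain ⟨ε, hε1, hε2⟩ := (h2.and h3).exists
      have h4 := hval t hT (p t) hpK s hs ε hε2.1 hε2.2.le hε1
      rw [aff_extrap, hp0 (φ t) (fun s' hs' => hφ0 t hT s' (mem_filter.1 hs').1
        (mem_filter.1 hs').2)] at h4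
      have h5 := hφ1 t hT s hs hsep
      have h6 : 0 < ε * φ t (q s) := mul_pos hε2.1 h5
      simp only [smul_eq_mul, mul_zero, zero_sub] at h4
      linarith
    · exact ⟨none, hs, hT, hsep, hN⟩
  · intro k t s h1 h2
    by_contra hk
    push Not at hk
    have h3 := h1 ⟨0, by omega⟩
    have h4 := h1 ⟨1, hk⟩
    have h5 := h2 ⟨1, hk⟩ ⟨0, by omega⟩ (by simp [Fin.lt_def])
    exact h3.2.2.2 ⟨_, mem_filter.2 ⟨h4.1, h5⟩⟩
  · intro b k t s h1 h2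
    rcases k with _ | k
    · omega
    · have := hℓ b k (fun i => {x | x ∈ C b ∧ ∀ j, j < i → x ∈ minFace (C b) (A b (p (t j)))})
        ?_ ?_ ?_
      · omega
      · intro i
        exact isFace_iInter (hC b) (fun j => j < i) _ fun j _ =>
          minFace_isFace (hC b) (hKC b _ (hp (t j) (h1 j).2.2.2.1).1)
      · intro i
        refine ⟨A b (q (s i)), hq _ (h1 i).1 b, fun j hj => ?_⟩
        exact hmem b (t j) (s i) (mem_filter.2 ⟨(h1 i).1, h2 i j hj⟩)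
      · intro i i' hii'
        refine ⟨fun x hx => ⟨hx.1, fun j hj => hx.2 j (hj.trans hii')⟩, fun hsub => ?_⟩
        have h3 : A b (q (s i)) ∈
            {x | x ∈ C b ∧ ∀ j, j < i' → x ∈ minFace (C b) (A b (p (t j)))} := by
          apply hsub
          refine ⟨hq _ (h1 i).1 b, fun j hj => ?_⟩
          exact hmem b (t j) (s i) (mem_filter.2 ⟨(h1 i).1, h2 i j hj⟩)
        exact (h1 i).2.2.2.2 (h3.2 i hii')

end Pool.Agent.ConvG
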