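import Pool.Agent.ConvG.MainP
import Pool.Agent.ConvG.Geo2

/-!
# The lower bound for programs, weights in `[1, 2 + ε]`
-/

namespace Pool.Agent.ConvG

open Finset Pool.Agent.ConvF Pool.Agent.H98.ConicCount

theorem mainE {e : ℝ} (he : 0 < e) (n m : ℕ) (hm : 48 * m ≤ n) (P : Fin (2 ^ m) → Program n)
    (hP : ∀ W : Fin n → Fin n → ℝ, (∀ u, W u u = 0) → (∀ u v, W u v = W v u) →
      (∀ u v, u ≠ v → 1 ≤ W u v ∧ W u v ≤ 2 + e) → Correct P W) (ℓ : ∀ j, (P j).ι → ℕ)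
    (hℓ : ∀ j b, ChainsLE ((P j).C b) (ℓ j b)) :
    ∃ j, (n : ℝ) ^ 3 ≤ 3 * 10 ^ 9 * (1 + ∑ b, min
      (((m : ℝ) + 1) ^ 3 * ((ℓ j b : ℝ) + 1) ^ (3 / 2 : ℝ)) (((ℓ j b : ℝ) + 1) ^ 3)) := by
  classical
  obtain ⟨f, hf⟩ := geo2E he P hP
  -- pigeonhole
  obtain ⟨j, hj⟩ : ∃ j : Fin (2 ^ m),
      2 ^ n ≤ 2 ^ m * (univ.filter fun s : Fin n → Bool => f s = j).card := by
    by_contra hcon
    push Not at hcon
    have h1 : (univ : Finset (Fin n → Bool)).card =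
        ∑ j : Fin (2 ^ m), (univ.filter fun s => f s = j).card :=
      card_eq_sum_card_fiberwise (fun s _ => mem_univ _)
    have h2 : (univ : Finset (Fin n → Bool)).card = 2 ^ n := by rw [card_univ]; simp
    have h3 : ∑ j : Fin (2 ^ m), 2 ^ m * (univ.filter fun s : Fin n → Bool => f s = j).card <
        ∑ _j : Fin (2 ^ m), 2 ^ n :=
      sum_lt_sum_of_nonempty ⟨⟨0, by positivity⟩, mem_univ _⟩ fun j _ => hcon j
    rw [← mul_sum, ← h1, h2, sum_const, card_univ, Fintype.card_fin, smul_eq_mul] at h3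
    exact lt_irrefl _ h3
  refine ⟨j, ?_⟩
  set 𝒮 : Finset (Fin n → Bool) := univ.filter fun s => f s = j with h𝒮
  obtain ⟨M, hM, hcov, hL0, hLb⟩ := hf j (ℓ j) (hℓ j)
  obtain ⟨I, ρ, 𝒮', hsub𝒮, hcube, hI, hI1, hI2⟩ := dense_pack 𝒮 hj
  -- sizes
  have hS'pos : (2 : ℝ) ^ (n - I.card) / 2 ^ m ≤ 𝒮'.card := by
    refine le_trans ?_ hI1
    have hj' : (2 : ℝ) ^ n / 2 ^ m ≤ 𝒮.card := by
      rw [div_le_iff₀ (by positivity), mul_comm]
      exact_mod_cast hj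
    have hIn : I.card ≤ n := by
      have := card_le_univ I
      rwa [Fintype.card_fin] at this
    have h1 : (2 : ℝ) ^ (n - I.card) = (1 / 2) ^ I.card * 2 ^ n := by
      rw [pow_sub₀ _ two_ne_zero hIn, one_div, inv_pow, mul_comm]
    calc (2 : ℝ) ^ (n - I.card) / 2 ^ m = (1 / 2) ^ I.card * (2 ^ n / 2 ^ m) := by
          rw [h1, mul_div_assoc]
      _ ≤ (53 / 100) ^ I.card * 𝒮.card :=
          mul_le_mul (pow_le_pow_left₀ (by norm_num) (by norm_num) _) hj' (by positivity)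
            (by positivity)
  have hSpos : (0 : ℝ) < 𝒮'.card := lt_of_lt_of_le (by positivity) hS'pos
  -- triples disjoint from `I`
  set T : Finset (Tri n) := univ.filter fun t => TK t ∧ ∀ i, t i ∉ I with hT
  -- lower bound of the number of separated pairs
  have hlow : (1 / 10 : ℝ) * 𝒮'.card * T.card ≤
      ∑ s ∈ 𝒮', ((T.filter fun t => SepBy t s).card : ℝ) := by
    have h1 : ∑ s ∈ 𝒮', ((T.filter fun t => SepBy t s).card : ℝ) =
        ∑ t ∈ T, ((𝒮'.filter fun s => SepBy t s).card : ℝ) := by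
      have e1 : ∀ s ∈ 𝒮', ((T.filter fun t => SepBy t s).card : ℝ) =
          ∑ t ∈ T, if SepBy t s then (1 : ℝ) else 0 := by
        intro s _
        rw [← sum_filter, sum_const, nsmul_eq_mul, mul_one]
      have e2 : ∀ t ∈ T, ((𝒮'.filter fun s => SepBy t s).card : ℝ) =
          ∑ s ∈ 𝒮', if SepBy t s then (1 : ℝ) else 0 := by
        intro t _
        rw [← sum_filter, sum_const, nsmul_eq_mul, mul_one]
      rw [sum_congr rfl e1, sum_congr rfl e2, sum_comm]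
    rw [h1]
    calc (1 / 10 : ℝ) * 𝒮'.card * T.card = ∑ t ∈ T, (1 / 10 : ℝ) * 𝒮'.card := by
          rw [sum_const, nsmul_eq_mul]; ring
      _ ≤ ∑ t ∈ T, ((𝒮'.filter fun s => SepBy t s).card : ℝ) := by
          apply sum_le_sum
          intro t ht
          exact sep_many 𝒮' I hI2 t (mem_filter.1 ht).2.2
  -- cover by the blocks
  have hup : ∑ s ∈ 𝒮', ((T.filter fun t => SepBy t s).card : ℝ) ≤
      ∑ b, ∑ s ∈ 𝒮', ((univ.filter fun t : Tri n => M b t s ∧ ∀ i, t i ∉ I).card : ℝ) := by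
    rw [sum_comm]
    apply sum_le_sum
    intro s hs
    have hs𝒮 : s ∈ 𝒮 := hsub𝒮 hs
    have hsub : (T.filter fun t => SepBy t s) ⊆
        univ.biUnion fun b => univ.filter fun t : Tri n => M b t s ∧ ∀ i, t i ∉ I := by
      intro t ht
      rw [mem_filter, hT, mem_filter] at ht
      obtain ⟨b, hb⟩ := hcov s (mem_filter.1 hs𝒮).2 t ht.1.2.1 ht.2
      rw [mem_biUnion]
      exact ⟨b, mem_univ _, mem_filter.2 ⟨mem_univ _, hb, ht.1.2.2⟩⟩
    have := (card_le_card hsub).trans card_biUnion_le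
    exact_mod_cast this
  -- the bound of one block
  have hblock : ∀ (N : Tri n → (Fin n → Bool) → Prop) (l : ℕ), (∀ t s, N t s → SepBy t s) →
      TriLE N (l + 1) →
      ∑ s ∈ 𝒮', ((univ.filter fun t : Tri n => N t s ∧ ∀ i, t i ∉ I).card : ℝ) ≤
        2749788 * min (((m : ℝ) + 1) ^ 3 * ((l : ℝ) + 1) ^ (3 / 2 : ℝ)) (((l : ℝ) + 1) ^ 3) *
          𝒮'.card := by
    intro N l hN hNL
    have hl : (1 : ℝ) ≤ (l : ℝ) + 1 := by
      have : (0 : ℝ) ≤ l := by positivity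
      linarith
    have hpow : ((l : ℝ) + 1) ^ (3 / 2 : ℝ) = ((l : ℝ) + 1) * √((l : ℝ) + 1) := by
      rw [show (3 / 2 : ℝ) = 1 + 1 / 2 by norm_num, Real.rpow_add (by linarith), Real.rpow_one,
        Real.sqrt_eq_rpow]
    rw [mul_assoc, min_mul_of_nonneg _ _ hSpos.le, mul_min_of_nonneg _ _ (by norm_num)]
    refine le_min ?_ ?_
    · have hNI : TriLE (fun (t : Tri n) (s : Fin n → Bool) => N t s ∧ ∀ i, t i ∉ I) (l + 1) := by
        intro k t s hts hns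
        exact hNL k t s (fun a => (hts a).1) hns
      have h0 := combA (fun (t : Tri n) (s : Fin n → Bool) => N t s ∧ ∀ i, t i ∉ I)
        (fun t s h => hN t s h.1) I ρ (fun t s h => h.2) (l + 1) hNI m 𝒮' hcube
      refine le_trans (le_of_eq (sum_congr rfl fun s _ =>
        congrArg (fun F : Finset (Tri n) => (F.card : ℝ)) ?_)) (h0.trans ?_)
      · ext t
        simp only [mem_filter]
      have h2 : (𝒮'.card : ℝ) + 81 * 2 ^ (n - I.card) / 2 ^ m ≤ 82 * 𝒮'.card := by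
        have : (81 : ℝ) * 2 ^ (n - I.card) / 2 ^ m = 81 * (2 ^ (n - I.card) / 2 ^ m) := by ring
        rw [this]; linarith
      have h3 : ((m : ℝ) + 3) ^ 3 ≤ 27 * ((m : ℝ) + 1) ^ 3 := by
        have hm0 : (0 : ℝ) ≤ m := Nat.cast_nonneg m
        calc ((m : ℝ) + 3) ^ 3 ≤ (3 * ((m : ℝ) + 1)) ^ 3 :=
              pow_le_pow_left₀ (by positivity) (by linarith) 3
          _ = 27 * ((m : ℝ) + 1) ^ 3 := by ring
      have h4 : (0 : ℝ) ≤ (((l + 1 : ℕ) : ℝ) * √((l + 1 : ℕ) : ℝ)) := by positivity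
      calc 1242 * (((l + 1 : ℕ) : ℝ) * √((l + 1 : ℕ) : ℝ)) * ((m : ℝ) + 3) ^ 3 *
            ((𝒮'.card : ℝ) + 81 * 2 ^ (n - I.card) / 2 ^ m)
          ≤ 1242 * (((l + 1 : ℕ) : ℝ) * √((l + 1 : ℕ) : ℝ)) * (27 * ((m : ℝ) + 1) ^ 3) *
            (82 * 𝒮'.card) := by
            gcongr
        _ = 2749788 * (((m : ℝ) + 1) ^ 3 * ((l : ℝ) + 1) ^ (3 / 2 : ℝ) * 𝒮'.card) := by
            rw [hpow]; push_cast; ring
    · refine (process N hN (l + 1) hNL 𝒮' I hI2).trans ?_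
      rw [← mul_assoc]
      apply mul_le_mul_of_nonneg_right _ hSpos.le
      push_cast
      have : (1 : ℝ) ≤ ((l : ℝ) + 1) ^ 3 := one_le_pow₀ hl
      nlinarith
  -- sum over the blocks
  have hsum : ∑ b, ∑ s ∈ 𝒮', ((univ.filter fun t : Tri n => M b t s ∧ ∀ i, t i ∉ I).card : ℝ) ≤
      2749788 * (1 + ∑ b, min (((m : ℝ) + 1) ^ 3 * ((ℓ j b : ℝ) + 1) ^ (3 / 2 : ℝ))
        (((ℓ j b : ℝ) + 1) ^ 3)) * 𝒮'.card := by
    rw [Fintype.sum_option, mul_add, add_mul, mul_sum, sum_mul]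
    apply add_le_add
    · refine (hblock (M none) 0 (hM _) hL0).trans ?_
      have : min (((m : ℝ) + 1) ^ 3 * (((0 : ℕ) : ℝ) + 1) ^ (3 / 2 : ℝ))
          ((((0 : ℕ) : ℝ) + 1) ^ 3) ≤ 1 := by
        refine (min_le_right _ _).trans ?_
        norm_num
      apply mul_le_mul_of_nonneg_right _ hSpos.le
      linarith
    · apply sum_le_sum
      intro b _
      exact hblock (M (some b)) (ℓ j b) (hM _) (hLb b)
  set R : ℝ := 1 + ∑ b, min (((m : ℝ) + 1) ^ 3 * ((ℓ j b : ℝ) + 1) ^ (3 / 2 : ℝ))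
        (((ℓ j b : ℝ) + 1) ^ 3) with hR
  have hR1 : 1 ≤ R := by
    rw [hR]
    have : 0 ≤ ∑ b, min (((m : ℝ) + 1) ^ 3 * ((ℓ j b : ℝ) + 1) ^ (3 / 2 : ℝ))
        (((ℓ j b : ℝ) + 1) ^ 3) := sum_nonneg fun b _ => le_min (by positivity) (by positivity)
    linarith
  -- the number of triples
  have hTn : (T.card : ℝ) ≤ 27497880 * R := by
    have h1 := hlow.trans (hup.trans hsum)
    have h2 : (1 / 10 : ℝ) * T.card * 𝒮'.card ≤ 2749788 * R * 𝒮'.card := by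
      calc (1 / 10 : ℝ) * T.card * 𝒮'.card = (1 / 10 : ℝ) * 𝒮'.card * T.card := by ring
        _ ≤ _ := h1
    have h3 := le_of_mul_le_mul_right h2 hSpos
    linarith
  by_cases hn : n < 24
  · have h1 : (n : ℝ) ^ 3 ≤ 24 ^ 3 := by
      apply pow_le_pow_left₀ (by positivity)
      exact_mod_cast hn.le
    have h2 : (24 : ℝ) ^ 3 ≤ 3 * 10 ^ 9 * 1 := by norm_num
    exact h1.trans (h2.trans (by gcongr))
  · push Not at hn
    have h1 := card_TK hn I (by omega)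
    rw [← hT] at h1
    nlinarith

end Pool.Agent.ConvG
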